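import Pool.Agent.Helper245.G45.Inst
import Pool.Agent.Helper245.G45.Apply

/-!
# Every set of 289 integers has a difference which is a gap between consecutive primes

One of the positive differences of ANY 289 integers is equal to `p_{n+1} - p_n` for at least
`x / (log x) ^ B` of the primes `p_n ≤ x`, for arbitrarily large `x`, with an absolute constant `B`. More
generally, let `r` be prime to `q`. One of the positive differences of any `M` integers which are congruent
modulo `q` is equal to `p_{n+1} - p_n` with `p_n ≡ r (mod q)`, for so many `n`, where `M = 289` in all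
cases, `M = 145` if `q` is even, `M = 97` if `6 ∣ q`, `M = 78` if `30 ∣ q`, `M = 67` if `210 ∣ q`, `M = 61`
if `2310 ∣ q`, `M = 57` if `30030 ∣ q` and `M = 45` if `q` is divisible by all primes up to `43`.

Proof: the theorem on forty-five linear forms of the starting files (`Pool.Agent.Y876.FF.exact_forms`, with
`Pool.Agent.Y876.FF.lh45`, which rests on helper826's `DHL[45,2]`); the smallest class modulo each prime
which does not divide `q` is dropped, and 45 integers are left. helper245.
-/

set_option autoImplicit false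

open Filter

namespace Pool.Agent.Results.MP_70e905_nt.ArbitrarySets

open Pool.Agent.Helper245.G45

/-- `p_n = Nat.nth Nat.Prime n`, `n = 0, 1, ...`, are the primes in increasing order; `13082761331670030`
is the product of the primes up to `43`. -/
theorem result : ∃ B : ℕ, ∀ (q : ℕ) (r : ℤ), 0 < q → IsCoprime r (q : ℤ) →
    ∀ S : Finset ℤ, (∀ a ∈ S, ∀ b ∈ S, a ≡ b [ZMOD q]) →
      (289 ≤ S.card ∨ (2 ∣ q ∧ 145 ≤ S.card) ∨ (6 ∣ q ∧ 97 ≤ S.card) ∨ (30 ∣ q ∧ 78 ≤ S.card) ∨
        (210 ∣ q ∧ 67 ≤ S.card) ∨ (2310 ∣ q ∧ 61 ≤ S.card) ∨ (30030 ∣ q ∧ 57 ≤ S.card) ∨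
        (13082761331670030 ∣ q ∧ 45 ≤ S.card)) →
      ∃ a ∈ S, ∃ b ∈ S, a < b ∧ ∃ᶠ x : ℝ in atTop, x / Real.log x ^ B ≤
        (Set.ncard {n : ℕ | (Nat.nth Nat.Prime n : ℝ) ≤ x ∧
          (Nat.nth Nat.Prime n : ℤ) ≡ r [ZMOD q] ∧
          (Nat.nth Nat.Prime (n + 1) : ℤ) - Nat.nth Nat.Prime n = b - a} : ℝ) := by
  refine ⟨Pool.Agent.Y876.FF.CC 45 + 3 + 1, fun q r hq hr S hS hcard => ?_⟩
  have key : ∀ (L : List ℕ) (n Q : ℕ), (∀ p ∈ L, p.Prime) →
      (∀ p : ℕ, p.Prime → p ≤ 43 → p ∣ Q ∨ p ∈ L) → left L n = 45 → Q ∣ q → n ≤ S.card →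
      ∃ a ∈ S, ∃ b ∈ S, a < b ∧ ∃ᶠ x : ℝ in atTop,
        x / Real.log x ^ (Pool.Agent.Y876.FF.CC 45 + 3 + 1) ≤ ((gapIdx q r (b - a) x).ncard : ℝ) := by
    intro L n Q h1 h2 h3 h4 h5
    refine set_gap ef ls q hq r hr S hS L h1 (fun p hp hp43 => (h2 p hp hp43).imp (fun h => h.trans h4) id) ?_
    rw [← h3]
    exact left_mono L h5
  rcases hcard with h | ⟨hd, h⟩ | ⟨hd, h⟩ | ⟨hd, h⟩ | ⟨hd, h⟩ | ⟨hd, h⟩ | ⟨hd, h⟩ | ⟨hd, h⟩
  · refine key [2, 3, 5, 7, 11, 13, 17, 19, 23, 29, 31, 37, 41, 43] 289 1 ?_ ?_ (by decide) (one_dvd _) h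
    · intro p hp; fin_cases hp <;> norm_num
    · intro p hp h43
      have := hp.two_le
      interval_cases p <;> first | exact absurd hp (by decide) | exact Or.inr (by decide)
  · refine key [3, 5, 7, 11, 13, 17, 19, 23, 29, 31, 37, 41, 43] 145 2 ?_ ?_ (by decide) hd h
    · intro p hp; fin_cases hp <;> norm_num
    · intro p hp h43
      have := hp.two_le
      interval_cases p <;> first | exact absurd hp (by decide) | exact Or.inl (by decide) | exact Or.inr (by decide)
  · refine key [5, 7, 11, 13, 17, 19, 23, 29, 31, 37, 41, 43] 97 6 ?_ ?_ (by decide) hd h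
    · intro p hp; fin_cases hp <;> norm_num
    · intro p hp h43
      have := hp.two_le
      interval_cases p <;> first | exact absurd hp (by decide) | exact Or.inl (by decide) | exact Or.inr (by decide)
  · refine key [7, 11, 13, 17, 19, 23, 29, 31, 37, 41, 43] 78 30 ?_ ?_ (by decide) hd h
    · intro p hp; fin_cases hp <;> norm_num
    · intro p hp h43
      have := hp.two_le
      interval_cases p <;> first | exact absurd hp (by decide) | exact Or.inl (by decide) | exact Or.inr (by decide)
  · refine key [11, 13, 17, 19, 23, 29, 31, 37, 41, 43] 67 210 ?_ ?_ (by decide) hd h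
    · intro p hp; fin_cases hp <;> norm_num
    · intro p hp h43
      have := hp.two_le
      interval_cases p <;> first | exact absurd hp (by decide) | exact Or.inl (by decide) | exact Or.inr (by decide)
  · refine key [13, 17, 19, 23, 29, 31, 37, 41, 43] 61 2310 ?_ ?_ (by decide) hd h
    · intro p hp; fin_cases hp <;> norm_num
    · intro p hp h43
      have := hp.two_le
      interval_cases p <;> first | exact absurd hp (by decide) | exact Or.inl (by decide) | exact Or.inr (by decide)
  · refine key [17, 19, 23, 29, 31, 37, 41, 43] 57 30030 ?_ ?_ (by decide) hd h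
    · intro p hp; fin_cases hp <;> norm_num
    · intro p hp h43
      have := hp.two_le
      interval_cases p <;> first | exact absurd hp (by decide) | exact Or.inl (by decide) | exact Or.inr (by decide)
  · refine key [] 45 13082761331670030 (by simp) ?_ rfl hd h
    intro p hp h43
    have := hp.two_le
    interval_cases p <;> first | exact absurd hp (by decide) | exact Or.inl (by decide)

end Pool.Agent.Results.MP_70e905_nt.ArbitrarySets
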