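import Pool.Agent.V11316.CP3

/-!
# Chen's theorem for differences, with a polynomial side condition

For `1 ≤ h ≤ X` we count the primes `p` for which `p + h` is a product of at most two large
primes and the value `f(p)` of a given polynomial (which may depend on `X` and `h`) is a product of
boundedly many large primes, in all intervals `(A, B]` with `B - A ≥ θ X`; and the progressions formed by
these primes.
-/

set_option autoImplicit false

namespace Pool.Agent.Results.MP_70e905_nt.ChenDifferences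

open Finset Filter

/-- `k ≠ 0` is up to the sign a product of at most `N` primes, all of them larger than `y` -/
def Rough (N : ℕ) (y : ℝ) (k : ℤ) : Prop :=
  k ≠ 0 ∧ k.natAbs.primeFactorsList.length ≤ N ∧ ∀ q : ℕ, q.Prime → (q : ℤ) ∣ k → y < q

/-- `1 ≤ h ≤ X`, and `f` is a polynomial of degree at most `r` with coefficients at most `X ^ K` for
which there is no local obstruction: for every prime `q` some `x (x + h) f(x)` is prime to `q` (for `q = 2`
this implies that `h` is even) -/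
structure Poly (r K X h : ℕ) (f : Polynomial ℤ) : Prop where
  pos : 1 ≤ h
  size : h ≤ X
  deg : f.natDegree ≤ r
  coeff : ∀ i, |f.coeff i| ≤ (X : ℤ) ^ K
  loc : ∀ q : ℕ, q.Prime → ∃ x : ℤ, ¬ (q : ℤ) ∣ x * (x + h) * f.eval x

open Classical in
/-- the primes `p > X ^ (1/t)` of `(A, B]` for which `p + h` is a product of at most two
primes, larger than `X ^ (1/9)` and `X ^ (1/t)`, and `f(p)` is (up to the sign) a product of at most `N`
primes larger than `X ^ (1/t)` -/
noncomputable def R (t N X h : ℕ) (f : Polynomial ℤ) (A B : ℕ) : Finset ℕ :=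
  (Ioc A B).filter (fun p : ℕ => p.Prime ∧ (X : ℝ) ^ (1 / (t : ℝ)) < p ∧
    Rough 2 (max ((X : ℝ) ^ (1 / 9 : ℝ)) ((X : ℝ) ^ (1 / (t : ℝ)))) (p + h) ∧
    Rough N ((X : ℝ) ^ (1 / (t : ℝ))) (f.eval (p : ℤ)))

/-- the number of the classes `x` modulo `q` with `x (x + h) f(x) ≡ 0` -/
noncomputable def ρ (f : Polynomial ℤ) (h q : ℕ) : ℕ :=
  ((range q).filter (fun x : ℕ => (q : ℤ) ∣ (x : ℤ) * (x + h) * f.eval (x : ℤ))).card

/-- the sieve product -/
noncomputable def V (f : Polynomial ℤ) (h X : ℕ) : ℝ :=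
  ∏ q ∈ (Icc 1 X).filter Nat.Prime, (1 - (ρ f h q : ℝ) / q)

open Classical in
/-- the number of the progressions `a, a + d, …, a + (k - 1) d` in `S` with `1 ≤ d ≤ D` -/
noncomputable def AP (k D : ℕ) (S : Finset ℕ) : ℕ :=
  ((S ×ˢ Icc 1 D).filter (fun q => ∀ j < k, q.1 + j * q.2 ∈ S)).card

theorem dvd_iff (q : ℕ) (x h : ℤ) (f : Polynomial ℤ) :
    (q : ℤ) ∣ x * (-h - x) * f.eval x ↔ (q : ℤ) ∣ x * (x + h) * f.eval x := by
  have e : x * (-h - x) * f.eval x = -(x * (x + h) * f.eval x) := by ring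
  rw [e, dvd_neg]

theorem data {r K X h : ℕ} {f : Polynomial ℤ} (D : Poly r K X h f) :
    Pool.Agent.V11316.CP.Data r K X f (-(h : ℤ)) := by
  have h1 := D.pos
  refine ⟨D.deg, D.coeff, by omega, by rw [abs_neg, Nat.abs_cast]; exact_mod_cast D.size, fun q hq => ?_⟩
  obtain ⟨x, hx⟩ := D.loc q hq
  exact ⟨x, by rwa [dvd_iff]⟩

theorem V_eq (f : Polynomial ℤ) (h X : ℕ) : Pool.Agent.V11316.CP.V f (-(h : ℤ)) X = V f h X := by
  unfold Pool.Agent.V11316.CP.V V
  apply prod_congr rfl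
  intro q _
  unfold Pool.Agent.V11316.CP.rhoP ρ
  congr 4
  ext x
  rw [mem_filter, mem_filter, dvd_iff]

theorem R_eq (t N X h : ℕ) (f : Polynomial ℤ) (A B : ℕ) :
    Pool.Agent.V11316.CP.G t N X f (-(h : ℤ)) A B = R t N X h f A B := by
  classical
  unfold Pool.Agent.V11316.CP.G R
  apply filter_congr
  intro p _
  have e : -(h : ℤ) - (p : ℤ) = -((p : ℤ) + h) := by ring
  constructor
  · rintro ⟨h1, h2, h3, h4⟩
    refine ⟨h1, h2, ?_, h4⟩
    have := Pool.Agent.V11316.CP.Rough_neg h3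
    rw [e, neg_neg] at this
    exact this
  · rintro ⟨h1, h2, h3, h4⟩
    refine ⟨h1, h2, ?_, h4⟩
    rw [e]
    exact Pool.Agent.V11316.CP.Rough_neg h3

/-- **Theorem.** Let `r` be given. There are `t` and `c, C > 0` such that for all `K`, all `θ > 0`, all
large `X`, ALL `h` with `1 ≤ h ≤ X`, ALL polynomials `f` of degree at most `r` with coefficients at most
`X ^ K` for which there is no local obstruction, and all `0 ≤ A < B ≤ X` with `B - A ≥ θ X`: (1) the number
of the primes `p` in `(A, B]` for which `p + h` is a product of at most two primes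
`> X ^ (1/9)` and `f(p)` is a product of at most `t (K + r + 1)` primes `> X ^ (1/t)` is between
`c (B - A) V` and `C (B - A) V`, and `V ≥ c / (log X) ^ (r + 2)`. (2) For all `k ≥ 1` and `δ > 0` there are
`c', C' > 0` and `b` such that every set `S` of such primes contains, for all `D` between `(log X) ^ b` and
`B - A`, at most `C' (B - A) D V ^ k` progressions of `k` terms with difference at most `D`; at least
`c' (B - A) D V ^ k` of them if `S` contains at least `δ` times all such primes; and if it contains at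
least `δ (B - A) D V ^ k` of them then it contains at least `c'` times all such primes. -/
theorem result (r : ℕ) : ∃ t : ℕ, 1 ≤ t ∧ ∃ c C : ℝ, 0 < c ∧ 0 < C ∧
    (∀ (K : ℕ) (θ : ℝ), 0 < θ → ∃ X₀ : ℕ, ∀ X : ℕ, X₀ ≤ X → ∀ (h : ℕ) (f : Polynomial ℤ),
      Poly r K X h f → c / Real.log X ^ (r + 2) ≤ V f h X ∧
      ∀ A B : ℕ, B ≤ X → θ * X ≤ (B : ℝ) - A →
        c * (((B : ℝ) - A) * V f h X) ≤ ((R t (t * (K + r + 1)) X h f A B).card : ℝ) ∧
        ((R t (t * (K + r + 1)) X h f A B).card : ℝ) ≤ C * (((B : ℝ) - A) * V f h X)) ∧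
    (∀ k : ℕ, 1 ≤ k → ∀ δ : ℝ, 0 < δ → ∃ c' C' : ℝ, 0 < c' ∧ 0 < C' ∧ ∃ b : ℕ, ∀ (K : ℕ) (θ : ℝ),
      0 < θ → ∃ X₀ : ℕ, ∀ X : ℕ, X₀ ≤ X → ∀ (h : ℕ) (f : Polynomial ℤ), Poly r K X h f →
      ∀ A B : ℕ, B ≤ X → θ * X ≤ (B : ℝ) - A → ∀ D : ℕ, Real.log X ^ b ≤ D → (D : ℝ) ≤ (B : ℝ) - A →
      ∀ S : Finset ℕ, S ⊆ R t (t * (K + r + 1)) X h f A B →
        (AP k D S : ℝ) ≤ C' * (((B : ℝ) - A) * D * V f h X ^ k) ∧
        (δ * ((R t (t * (K + r + 1)) X h f A B).card : ℝ) ≤ S.card →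
          c' * (((B : ℝ) - A) * D * V f h X ^ k) ≤ (AP k D S : ℝ)) ∧
        (δ * (((B : ℝ) - A) * D * V f h X ^ k) ≤ (AP k D S : ℝ) →
          c' * ((R t (t * (K + r + 1)) X h f A B).card : ℝ) ≤ S.card)) := by
  obtain ⟨t, ht, c, C, hc, hC, H1, H2⟩ := Pool.Agent.V11316.CP.poly r
  refine ⟨t, ht, c, C, hc, hC, ?_, ?_⟩
  · intro K θ hθ
    obtain ⟨X₀, h1⟩ := H1 K θ hθ
    refine ⟨X₀, fun X hX h f D => ?_⟩
    have g := h1 X hX f (-(h : ℤ)) (data D)
    simp only [V_eq, R_eq] at g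
    exact g
  · intro k hk δ hδ
    obtain ⟨c', C', hc', hC', b, h1⟩ := H2 k hk δ hδ
    refine ⟨c', C', hc', hC', b, fun K θ hθ => ?_⟩
    obtain ⟨X₀, h2⟩ := h1 K θ hθ
    refine ⟨X₀, fun X hX h f P A B hB hAB D hD1 hD2 S hS => ?_⟩
    have g := h2 X hX f (-(h : ℤ)) (data P) A B hB hAB D hD1 hD2 S (by rw [R_eq]; exact hS)
    simp only [V_eq, R_eq] at g
    exact g

end Pool.Agent.Results.MP_70e905_nt.ChenDifferences
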