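import Pool.Agent.Helper245.G45.Inst
import Pool.Agent.Helper245.G45.Sets

/-!
# One of the first 106 multiples of every even number is a gap between consecutive primes

For every even `N > 0` and every class `r` prime to `N` one of `N, 2 N, ..., 106 N` is equal to
`p_{n+1} - p_n` with `p_n ≡ r (mod N)`, for at least `x / (log x) ^ B` of the primes `p_n ≤ x`, for
arbitrarily large `x`; `B` is an absolute constant. If `6 ∣ N` the first 73 multiples suffice, if `30 ∣ N`
the first 61, if `210 ∣ N` the first 54, if `2310 ∣ N` the first 51, if `30030 ∣ N` the first 49, and if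
`N` is divisible by all primes up to `43` the first 44.

Proof: the theorem on forty-five linear forms of the starting files (`Pool.Agent.Y876.FF.exact_forms`, with
`Pool.Agent.Y876.FF.lh45`, which rests on helper826's `DHL[45,2]`), applied to the forms
`N n + r + e N`, where `e` runs through a set of 45 integers which misses a class modulo every prime that
does not divide `N`; the sets were found by a computer search for narrow ones. helper245.
-/

set_option autoImplicit false

open Filter

namespace Pool.Agent.Results.MP_70e905_nt.FirstMultiples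

open Pool.Agent.Helper245.G45

/-- `p_n = Nat.nth Nat.Prime n`, `n = 0, 1, ...`, are the primes in increasing order; `13082761331670030`
is the product of the primes up to `43`. -/
theorem result : ∃ B : ℕ, ∀ (N : ℕ) (r : ℤ), 0 < N → 2 ∣ N → IsCoprime r (N : ℤ) →
    ∃ k : ℕ, 1 ≤ k ∧ k ≤ 106 ∧ (6 ∣ N → k ≤ 73) ∧ (30 ∣ N → k ≤ 61) ∧ (210 ∣ N → k ≤ 54) ∧
      (2310 ∣ N → k ≤ 51) ∧ (30030 ∣ N → k ≤ 49) ∧ (13082761331670030 ∣ N → k ≤ 44) ∧
      ∃ᶠ x : ℝ in atTop, x / Real.log x ^ B ≤
        (Set.ncard {n : ℕ | (Nat.nth Nat.Prime n : ℝ) ≤ x ∧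
          (Nat.nth Nat.Prime n : ℤ) ≡ r [ZMOD N] ∧
          (Nat.nth Nat.Prime (n + 1) : ℤ) - Nat.nth Nat.Prime n = k * N} : ℝ) := by
  refine ⟨Pool.Agent.Y876.FF.CC 45 + 3 + 1, fun N r hN h2 hr => ?_⟩
  by_cases h43 : 13082761331670030 ∣ N
  · obtain ⟨k, h1, hk, h⟩ := mult_gap ef ls N hN r hr (Finset.range 45) (by simp) 44
      (fun e he => by have := Finset.mem_range.1 he; omega)
      (fun p hp hp43 => (P43_cls p hp hp43).imp (fun h => h.trans h43) id)
    exact ⟨k, h1, by omega, fun _ => by omega, fun _ => by omega, fun _ => by omega, fun _ => by omega,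
      fun _ => by omega, fun _ => hk, h⟩
  by_cases h13 : 30030 ∣ N
  · obtain ⟨k, h1, hk, h⟩ := mult_gap ef ls N hN r hr E49 E49_card.ge 49 E49_le
      (fun p hp hp43 => (E49_cls p hp hp43).imp (fun h => h.trans h13) id)
    exact ⟨k, h1, by omega, fun _ => by omega, fun _ => by omega, fun _ => by omega, fun _ => by omega,
      fun _ => hk, fun h => absurd h h43, h⟩
  by_cases h11 : 2310 ∣ N
  · obtain ⟨k, h1, hk, h⟩ := mult_gap ef ls N hN r hr E51 E51_card.ge 51 E51_le
      (fun p hp hp43 => (E51_cls p hp hp43).imp (fun h => h.trans h11) id)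
    exact ⟨k, h1, by omega, fun _ => by omega, fun _ => by omega, fun _ => by omega, fun _ => hk,
      fun h => absurd h h13, fun h => absurd h h43, h⟩
  by_cases h7 : 210 ∣ N
  · obtain ⟨k, h1, hk, h⟩ := mult_gap ef ls N hN r hr E54 E54_card.ge 54 E54_le
      (fun p hp hp43 => (E54_cls p hp hp43).imp (fun h => h.trans h7) id)
    exact ⟨k, h1, by omega, fun _ => by omega, fun _ => by omega, fun _ => hk, fun h => absurd h h11,
      fun h => absurd h h13, fun h => absurd h h43, h⟩
  by_cases h5 : 30 ∣ N
  · obtain ⟨k, h1, hk, h⟩ := mult_gap ef ls N hN r hr E61 E61_card.ge 61 E61_le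
      (fun p hp hp43 => (E61_cls p hp hp43).imp (fun h => h.trans h5) id)
    exact ⟨k, h1, by omega, fun _ => by omega, fun _ => hk, fun h => absurd h h7, fun h => absurd h h11,
      fun h => absurd h h13, fun h => absurd h h43, h⟩
  by_cases h3 : 6 ∣ N
  · obtain ⟨k, h1, hk, h⟩ := mult_gap ef ls N hN r hr E73 E73_card.ge 73 E73_le
      (fun p hp hp43 => (E73_cls p hp hp43).imp (fun h => h.trans h3) id)
    exact ⟨k, h1, by omega, fun _ => hk, fun h => absurd h h5, fun h => absurd h h7, fun h => absurd h h11,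
      fun h => absurd h h13, fun h => absurd h h43, h⟩
  obtain ⟨k, h1, hk, h⟩ := mult_gap ef ls N hN r hr E106 E106_card.ge 106 E106_le
      (fun p hp hp43 => (E106_cls p hp hp43).imp (fun h => h.trans h2) id)
  exact ⟨k, h1, hk, fun h => absurd h h3, fun h => absurd h h5, fun h => absurd h h7,
    fun h => absurd h h11, fun h => absurd h h13, fun h => absurd h h43, h⟩

end Pool.Agent.Results.MP_70e905_nt.FirstMultiples
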