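import Pool.Agent.V11290.FD.Pairs
import Pool.Agent.V11290.FD.Win

/-!
# All even numbers near `t α + s` are differences of two primes, in the expected number of ways, for almost every `α` of a
set of positive Fourier dimension

Let `μ` be ANY compactly supported probability measure on the line whose Fourier transform decays like some power, with an
arbitrarily small exponent `σ > 0`. (Such measures live on many sets of Lebesgue measure zero and of arbitrarily small
dimension: on the badly approximable numbers with bounded partial quotients (Kaufman), on the sets of `τ`-well approximable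
numbers (Kaufman), on limit sets of convex cocompact Fuchsian groups (Bourgain, Dyatlov), on random Salem sets, ...). For
almost every `α` ALL even integers `n > 0` near `t j α + s j` are differences of two primes `≤ x`, and the number of the
representations is as predicted, for all `x` between `t log ^ 10 t` and `t log ^ W t`, `t = t j`.

Proof: the law of a random rounding of `t α` is approximated by a finite family of integers (with multiplicities); its
additive energy of order `p ≥ 1 / σ` is nearly minimal since the characteristic function of the rounding is small away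
from the integers (a Fourier series with the coefficients `sinc²`). The theorem of the library TH935.DF on thin families
of differences (starting files) is applied to these families, the result is carried back to the measure, and then the
lemma of Borel and Cantelli is applied.

Definition used: `Pool.Agent.H560R3.GB.sing n`: the singular series `2 C₂ ∏_{p ∣ n, p > 2} (p - 1) / (p - 2)`, where
`C₂ = ∏_{p > 2} (1 - 1 / (p - 1) ^ 2)` is the twin prime constant.
-/

set_option autoImplicit false

namespace Pool.Agent.Results.MP_70e905_nt.FourierDecay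

open Finset MeasureTheory Pool.Agent.H560R3.GB

open Classical in
/-- The number of the representations `n = p - q` with primes `p, q ≤ x`. -/
noncomputable def reps (n : ℕ) (x : ℝ) : ℕ :=
  ((range (⌊x⌋₊ + 1)).filter (fun q => q.Prime ∧ (q + n).Prime ∧ (q : ℝ) + n ≤ x)).card

/-- The prediction of Hardy and Littlewood for `reps n x`. -/
noncomputable def HL (n : ℕ) (x : ℝ) : ℝ := sing n * ∫ u in (2 : ℝ)..x, 1 / Real.log u ^ 2

lemma sing_ge_one (n : ℕ) : 1 ≤ sing n := by
  rw [Pool.Agent.W93.GB.sing_eq]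
  have h1 := Pool.Agent.W93.GB.C2_half
  have h2 : 1 ≤ ∏ p ∈ n.primeFactors.filter (fun p => 2 < p), Pool.Agent.W93.GB.dv p := by
    have h3 : ∏ _p ∈ n.primeFactors.filter (fun p => 2 < p), (1 : ℝ) ≤
        ∏ p ∈ n.primeFactors.filter (fun p => 2 < p), Pool.Agent.W93.GB.dv p := by
      apply Finset.prod_le_prod (fun _ _ => zero_le_one)
      intro p hp
      exact Pool.Agent.W93.GB.one_le_dv p (mem_filter.1 hp).2
    rwa [prod_const_one] at h3
  nlinarith

lemma Li2_ge (x : ℝ) (hx : 4 ≤ x) : x / (2 * Real.log x ^ 2) ≤ Pool.Agent.W93.PP.Li2 x := by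
  have hlx : 0 < Real.log x := Real.log_pos (by linarith)
  have hant : AntitoneOn (fun t : ℝ => 1 / Real.log t ^ 2) (Set.uIcc 2 x) := by
    apply Pool.Agent.W93.PP.anti.mono
    rw [Set.uIcc_of_le (by linarith)]
    exact Set.Icc_subset_Ici_self
  have h1 : ∫ u in (2 : ℝ)..x, (1 / Real.log x ^ 2) ≤ Pool.Agent.W93.PP.Li2 x := by
    unfold Pool.Agent.W93.PP.Li2
    apply intervalIntegral.integral_mono_on (by linarith) (by simp) hant.intervalIntegrable
    intro u hu
    have hu0 : 0 < Real.log u := Real.log_pos (by linarith [hu.1])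
    apply one_div_le_one_div_of_le (by positivity)
    exact pow_le_pow_left₀ hu0.le (Real.log_le_log (by linarith [hu.1]) hu.2) 2
  rw [intervalIntegral.integral_const, smul_eq_mul] at h1
  refine le_trans ?_ h1
  rw [mul_one_div, div_le_div_iff₀ (by positivity) (by positivity)]
  have h2 : 0 < Real.log x ^ 2 := by positivity
  nlinarith

/-- The numbers `reps n x`, for `y ≤ x ≤ y'`, agree with the prediction of Hardy and Littlewood up to a relative error of
at most `ε`; in particular `n` is a difference of two primes `≤ y` (if `ε < 1`). -/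
def Holds (ε y y' : ℝ) (n : ℕ) : Prop :=
  ∀ x : ℝ, y ≤ x → x ≤ y' → |(reps n x : ℝ) - HL n x| ≤ ε * HL n x ∧ (ε < 1 → 0 < reps n x)

lemma holds_of (ε : ℝ) (hε : 0 < ε) (W : ℕ) : ∃ t₀ : ℝ, ∀ t : ℝ, t₀ ≤ t → ∀ n : ℕ, 0 < n → Even n →
    Pool.Agent.W93.PP.GoodD 0 0 W (Pool.Agent.V11290.FD.XX t (W + 7)) n →
    Holds ε (t * Real.log t ^ 10) (t * Real.log t ^ W) n := by
  obtain ⟨t1, ht1⟩ := Pool.Agent.V11290.FD.xx_bounds W (W + 7) le_rfl
  refine ⟨max t1 (Real.exp (2 ^ (W + 12) / ε + 4)), fun t ht n hn0 hn2 hgood x hx1 hx2 => ?_⟩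
  have q1 : t1 ≤ t := (le_max_left _ _).trans ht
  have q2 : Real.exp (2 ^ (W + 12) / ε + 4) ≤ t := (le_max_right _ _).trans ht
  obtain ⟨g1, _, _, g4, g5⟩ := ht1 t q1
  have hexp : 0 < (2 : ℝ) ^ (W + 12) / ε := by positivity
  have ht4 : 5 ≤ t := by
    have := Real.add_one_le_exp ((2 : ℝ) ^ (W + 12) / ε + 4)
    linarith
  have ht0 : 0 < t := by linarith
  have hlog : (2 : ℝ) ^ (W + 12) / ε + 4 ≤ Real.log t := by
    rw [Real.le_log_iff_exp_le ht0]
    exact q2
  have hl1 : 1 ≤ Real.log t := by linarith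
  obtain ⟨X, hX⟩ : ∃ X : ℕ, X = Pool.Agent.V11290.FD.XX t (W + 7) := ⟨_, rfl⟩
  rw [← hX] at g1 g4 g5 hgood
  have hXe : (X : ℝ) = (⌈t⌉₊ : ℝ) * (⌈Real.log t⌉₊ : ℝ) ^ (W + 7) := by
    rw [hX]
    unfold Pool.Agent.V11290.FD.XX
    push_cast
    rfl
  have hN1 : t ≤ (⌈t⌉₊ : ℝ) := Nat.le_ceil _
  have hN2 : (⌈t⌉₊ : ℝ) ≤ 2 * t := by
    have := (Nat.ceil_lt_add_one ht0.le).le
    linarith
  have hL1 : Real.log t ≤ (⌈Real.log t⌉₊ : ℝ) := Nat.le_ceil _
  have hL2 : (⌈Real.log t⌉₊ : ℝ) ≤ 2 * Real.log t := by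
    have := (Nat.ceil_lt_add_one (by linarith : 0 ≤ Real.log t)).le
    linarith
  have hXlow : t * Real.log t ^ W ≤ X := by
    rw [hXe]
    apply mul_le_mul hN1 _ (by positivity) (by positivity)
    refine (pow_le_pow_right₀ hl1 (by omega : W ≤ W + 7)).trans ?_
    exact pow_le_pow_left₀ (by linarith) hL1 _
  have hXup : (X : ℝ) ≤ 2 ^ (W + 8) * (t * (Real.log t ^ W * Real.log t ^ 7)) := by
    rw [hXe]
    calc (⌈t⌉₊ : ℝ) * (⌈Real.log t⌉₊ : ℝ) ^ (W + 7) ≤ (2 * t) * (2 * Real.log t) ^ (W + 7) := by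
          apply mul_le_mul hN2 (pow_le_pow_left₀ (by positivity) hL2 _) (by positivity) (by positivity)
      _ = _ := by rw [mul_pow]; ring
  have hp10 : 1 ≤ Real.log t ^ 10 := one_le_pow₀ hl1
  have hx4 : 4 ≤ x := by nlinarith
  have hx0 : 0 < x := by linarith
  have h1 := hgood 0 1 1 (by simp) le_rfl (by simp) (by simp) (by simp) (by rw [add_zero]; exact hn2.two_dvd)
    (by rw [add_zero]; exact hn0.ne') x (by linarith) (hx2.trans hXlow)
  rw [add_zero] at h1
  have hreps : Pool.Agent.W93.PP.pc n x 1 1 = reps n x := by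
    unfold Pool.Agent.W93.PP.pc reps
    congr 1
    ext q
    simp only [mem_filter]
    constructor
    · rintro ⟨a1, a2, a3, a4, _⟩
      exact ⟨a1, a2, a3, a4⟩
    · rintro ⟨a1, a2, a3, a4⟩
      exact ⟨a1, a2, a3, a4, Nat.modEq_one⟩
  have hcnt : Pool.Agent.W93.PP.Cnt 1 n = 1 := by
    unfold Pool.Agent.W93.PP.Cnt
    simp
  rw [hreps, hcnt, Nat.cast_one, div_one] at h1
  have hHL : HL n x = sing n * Pool.Agent.W93.PP.Li2 x := rfl
  rw [← hHL] at h1
  -- the lower bound for the prediction
  have hlogx : Real.log x ≤ 2 * Real.log t := (Real.log_le_log hx0 (hx2.trans hXlow)).trans g4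
  have hlogx0 : 0 < Real.log x := Real.log_pos (by linarith)
  have hlow : t * Real.log t ^ 8 / 8 ≤ HL n x := by
    have h2 := Li2_ge x hx4
    have h3 := sing_ge_one n
    have h4 : t * Real.log t ^ 8 / 8 ≤ x / (2 * Real.log x ^ 2) := by
      rw [div_le_div_iff₀ (by norm_num) (by positivity)]
      have h5 : Real.log x ^ 2 ≤ 4 * Real.log t ^ 2 := by
        have := pow_le_pow_left₀ hlogx0.le hlogx 2
        rw [mul_pow] at this
        linarith
      calc t * Real.log t ^ 8 * (2 * Real.log x ^ 2) ≤ t * Real.log t ^ 8 * (2 * (4 * Real.log t ^ 2)) := by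
            apply mul_le_mul_of_nonneg_left _ (by positivity)
            linarith
        _ = (t * Real.log t ^ 10) * 8 := by ring
        _ ≤ x * 8 := by linarith
    have h6 : 0 ≤ x / (2 * Real.log x ^ 2) := by positivity
    rw [hHL]
    have h7 : 0 ≤ Pool.Agent.W93.PP.Li2 x := h6.trans h2
    nlinarith
  have herr : (X : ℝ) / Real.log X ^ W ≤ ε * (t * Real.log t ^ 8 / 8) / 2 := by
    have hW0 : 0 < Real.log t ^ W := by positivity
    calc (X : ℝ) / Real.log X ^ W ≤ 2 ^ (W + 8) * (t * (Real.log t ^ W * Real.log t ^ 7)) / Real.log t ^ W := by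
          apply div_le_div₀ (by positivity) hXup hW0
          exact pow_le_pow_left₀ (by linarith) g5 W
      _ = 2 ^ (W + 8) * (t * Real.log t ^ 7) := by field_simp
      _ = (2 ^ (W + 12) / ε) * (ε * (t * Real.log t ^ 7) / 16) := by
          field_simp
          ring
      _ ≤ Real.log t * (ε * (t * Real.log t ^ 7) / 16) := by
          apply mul_le_mul_of_nonneg_right (by linarith) (by positivity)
      _ = _ := by ring
  have hHL0 : 0 < HL n x := lt_of_lt_of_le (by positivity) hlow
  have h8 : |(reps n x : ℝ) - HL n x| ≤ ε * HL n x / 2 := by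
    refine h1.trans (herr.trans ?_)
    have := mul_le_mul_of_nonneg_left hlow hε.le
    linarith
  refine ⟨h8.trans (by nlinarith), fun hε1 => ?_⟩
  have h9 := (abs_le.1 h8).1
  have h10 : (0 : ℝ) < reps n x := by nlinarith
  exact_mod_cast h10

/-- Let `μ` be a probability measure on `[-B, B]` with `|μ^(ξ)| ≤ C |ξ| ^ (-σ)` for `|ξ| ≥ 1` and some `C` and `σ > 0`.
Let `t j ≥ 2` and `|s j| ≤ B t j` be real numbers, where `j` ranges over a set `J`, such that the sum of the
`1 / log ^ V (t j)` converges for some `V`. Then for `μ`-almost every `α`, for all `A`, `W` and `ε > 0` and for all but finitely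
many `j`: ALL even integers `n > 0` with `|n - (t j α + s j)| ≤ log ^ A (t j)` are such that for all
`t j log ^ 10 (t j) ≤ x ≤ t j log ^ W (t j)` the number of the representations `n = p - q` with primes `p, q ≤ x` agrees with
the prediction of Hardy and Littlewood up to a relative error of at most `ε`; this number is positive if `ε < 1`. -/
theorem result (μ : Measure ℝ) [IsProbabilityMeasure μ] (B : ℝ) (hμ : ∀ᵐ α ∂μ, |α| ≤ B)
    (C σ : ℝ) (hσ : 0 < σ) (hdec : ∀ ξ : ℝ, 1 ≤ |ξ| → ‖charFun μ ξ‖ ≤ C * |ξ| ^ (-σ))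
    (J : Type) (t s : J → ℝ) (ht : ∀ j, 2 ≤ t j) (hs : ∀ j, |s j| ≤ B * t j)
    (hsum : ∃ V : ℕ, Summable fun j => 1 / Real.log (t j) ^ V) :
    ∀ᵐ α ∂μ, ∀ (A W : ℕ) (ε : ℝ), 0 < ε →
      {j | ¬ ∀ n : ℕ, 0 < n → Even n → |(n : ℝ) - (t j * α + s j)| ≤ Real.log (t j) ^ A →
        Holds ε (t j * Real.log (t j) ^ 10) (t j * Real.log (t j) ^ W) n}.Finite := by
  obtain ⟨V, hV⟩ := hsum
  have h := Pool.Agent.V11290.FD.pairs_ae μ B hμ C σ hσ hdec J t s ht hs V hV
  filter_upwards [h] with α hα A W ε hε
  obtain ⟨t₀, h0⟩ := holds_of ε hε W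
  have hsmall := Pool.Agent.V11290.FD.small_fin t ht V hV t₀
  refine ((hα A 0 W (W + 7) le_rfl).union hsmall).subset ?_
  intro j hj
  rw [Set.mem_ofPred_eq] at hj
  by_cases h3 : t j < t₀
  · right
    exact h3
  left
  rw [Set.mem_ofPred_eq]
  intro hall
  apply hj
  intro n hn0 hn2 hn
  exact h0 (t j) (not_lt.1 h3) n hn0 hn2 (hall n hn)

end Pool.Agent.Results.MP_70e905_nt.FourierDecay
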